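import Pool.Agent.Helper56.XL.Lim
import Pool.Agent.Helper3.XL.Grow
import Pool.Agent.Helper73.XL.KWM

/-!
# XL, blocks H1, H2 in final form
-/

open MeasureTheory Real Set Filter Topology

set_option autoImplicit false

namespace Pool.Agent.Helper56.XL

open Pool.Agent.Helper22.AE
open Pool.Agent.Helper22.AC (cntc)
open Pool.Agent.Helper93.EX (Mx ak prim sn fJ)
open Pool.Agent.Helper22.WC (SupE SupQ LimS PM3)
open Pool.Agent.Helper60.AD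
open Pool.Agent.Helper22.XL

theorem growConv : GrowConv := fun {_} {_} hl hm hc hbl hbm {_} hφ {_} {_} hg => Pool.Agent.Helper3.XL.grow_conv hl hm hc hbl hbm hφ hg

/-- H1: the limit of the means of the random sum is the limit of the means of the error, fixed centre -/
theorem limF_eq {H : ℝ → ℝ} (hH : ContDiff ℝ 2 H) (hp : Function.Periodic H (2 * π)) (hr : ∀ θ, 0 < H θ + deriv (deriv H) θ) (hP : PM3 H) (hX : XP H)
    {φ : ℝ → ℝ} (hφ : Continuous φ) {A : ℝ} {q : ℕ} (hg : ∀ y, |φ y| ≤ A * (1 + |y|) ^ q) {m : ℝ}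
    (h : ∀ ε : ℝ, 0 < ε → ∃ X₀ : ℝ, 1 ≤ X₀ ∧ ∀ X : ℝ, X₀ ≤ X → |X⁻¹ * (∫ R in Icc X (2 * X), φ ((cntc H (0, 0) R - area H * R ^ 2) / sqrt R)) - m| ≤ ε) :
    Tendsto (fun n : ℕ => mF (2 ^ n) φ H) atTop (𝓝 m) :=
  limF_eq_of growConv Pool.Agent.Helper73.XL.zs_facts hH hp hr hP hX hφ hg h

/-- H2: the same at the worst centre -/
theorem limS_eq {H : ℝ → ℝ} (hH : ContDiff ℝ 2 H) (hp : Function.Periodic H (2 * π)) (hr : ∀ θ, 0 < H θ + deriv (deriv H) θ) (hP : PM3 H) (hX : XP H)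
    {φ : ℝ → ℝ} (hφ : Continuous φ) {A : ℝ} {q : ℕ} (hg : ∀ y, |φ y| ≤ A * (1 + |y|) ^ q) {m : ℝ}
    (h : ∀ ε : ℝ, 0 < ε → ∃ X₀ : ℝ, 1 ≤ X₀ ∧ ∀ X : ℝ, X₀ ≤ X → |X⁻¹ * (∫ R in Icc X (2 * X), φ (SupE H R / sqrt R)) - m| ≤ ε) :
    Tendsto (fun n : ℕ => mS (2 ^ n) φ H) atTop (𝓝 m) :=
  limS_eq_of growConv Pool.Agent.Helper73.XL.zs_facts hH hp hr hP hX hφ hg h

end Pool.Agent.Helper56.XL
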