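import Pool.Agent.Helper92.LW.Tools

/-!
# XL, blocks H1, H2: the generic lemma (identification of the limit of the means)
-/

open MeasureTheory Real Set Filter Topology

set_option autoImplicit false

namespace Pool.Agent.Helper56.XL

open Pool.Agent.Helper92.LW (fjk BM BM.comp BM.int)

/-- block G as a hypothesis -/
def GrowConv : Prop := ∀ {lam mu : ℕ → Measure ℝ}, (∀ n, IsProbabilityMeasure (lam n)) → (∀ n, IsProbabilityMeasure (mu n)) →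
    (∀ j K n : ℕ, ∃ n0 : ℕ, ∀ N : ℕ, n0 ≤ N → ∃ X₀ : ℕ, ∀ X : ℕ, X₀ + 1 ≤ X →
      |(∫ y, fjk j K y ∂(lam X)) - ∫ y, fjk j K y ∂(mu N)| ≤ 1 / ((n : ℝ) + 1)) →
    (∀ J : ℕ, ∃ C : ℝ, ∀ X : ℕ, 1 ≤ X → Integrable (fun y : ℝ => y ^ (2 * J)) (lam X) ∧ ∫ y, y ^ (2 * J) ∂(lam X) ≤ C) →
    (∀ J : ℕ, ∃ C : ℕ, ∀ N : ℕ, C ≤ N → Integrable (fun y : ℝ => y ^ (2 * J)) (mu N) ∧ ∫ y, y ^ (2 * J) ∂(mu N) ≤ C) →
    ∀ {φ : ℝ → ℝ}, Continuous φ → ∀ {A : ℝ} {q : ℕ}, (∀ y, |φ y| ≤ A * (1 + |y|) ^ q) →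
    ∀ ε : ℝ, 0 < ε → ∃ n0 : ℕ, ∀ N : ℕ, n0 ≤ N → ∃ X₀ : ℕ, ∀ X : ℕ, X₀ + 1 ≤ X → |(∫ y, φ y ∂(lam X)) - ∫ y, φ y ∂(mu N)| ≤ ε

/-- the law of `g` on `[X, 2X]` -/
noncomputable def law (g : ℝ → ℝ) (X : ℕ) : Measure ℝ :=
  if X = 0 then Measure.dirac 0 else Measure.map g ((ENNReal.ofReal ((X : ℝ)⁻¹)) • volume.restrict (Icc (X : ℝ) (2 * X)))

theorem law_prob {g : ℝ → ℝ} (hg : ∀ X : ℝ, 1 ≤ X → BM X g) (X : ℕ) : IsProbabilityMeasure (law g X) := by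
  unfold law
  split_ifs with h
  · exact Measure.dirac.isProbabilityMeasure
  · have hX : 1 ≤ X := Nat.one_le_iff_ne_zero.2 h
    have hX1 : (1 : ℝ) ≤ X := by exact_mod_cast hX
    have hX0 : (0 : ℝ) < X := by linarith
    have hp : IsProbabilityMeasure ((ENNReal.ofReal ((X : ℝ)⁻¹)) • volume.restrict (Icc (X : ℝ) (2 * X))) := by
      constructor
      rw [Measure.smul_apply, Measure.restrict_apply_univ, Real.volume_Icc, smul_eq_mul, ← ENNReal.ofReal_mul (by positivity)]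
      rw [show (X : ℝ)⁻¹ * (2 * X - X) = 1 by field_simp; ring]
      exact ENNReal.ofReal_one
    exact Measure.isProbabilityMeasure_map ((hg X hX1).1.smul_measure _)

theorem law_int {g : ℝ → ℝ} (hg : ∀ X : ℝ, 1 ≤ X → BM X g) {X : ℕ} (hX : 1 ≤ X) {φ : ℝ → ℝ} (hφ : Continuous φ) :
    Integrable φ (law g X) ∧ ∫ y, φ y ∂(law g X) = (X : ℝ)⁻¹ * ∫ R in Icc (X : ℝ) (2 * X), φ (g R) := by
  have hX1 : (1 : ℝ) ≤ X := by exact_mod_cast hX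
  have hX0 : (0 : ℝ) < X := by linarith
  have hne : X ≠ 0 := by omega
  unfold law
  rw [if_neg hne]
  have hm : AEMeasurable g ((ENNReal.ofReal ((X : ℝ)⁻¹)) • volume.restrict (Icc (X : ℝ) (2 * X))) := (hg X hX1).1.smul_measure _
  constructor
  · rw [integrable_map_measure hφ.aestronglyMeasurable hm]
    exact ((hg X hX1).comp hφ).int.smul_measure ENNReal.ofReal_ne_top
  · rw [integral_map hm hφ.aestronglyMeasurable, integral_smul_measure, ENNReal.toReal_ofReal (by positivity), smul_eq_mul]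

/-- the law of the random sum -/
noncomputable def lawZ {ι : Type} [Fintype ι] (Z : (ι → ℝ) → ℝ) : Measure ℝ :=
  Measure.map Z (volume.restrict (Icc (0 : ι → ℝ) 1))

theorem cube_prob (ι : Type) [Fintype ι] : IsProbabilityMeasure (volume.restrict (Icc (0 : ι → ℝ) 1)) := by
  constructor
  rw [Measure.restrict_apply_univ, Real.volume_Icc_pi]
  simp

theorem lawZ_prob {ι : Type} [Fintype ι] {Z : (ι → ℝ) → ℝ} (hZ : Continuous Z) : IsProbabilityMeasure (lawZ Z) := by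
  have := cube_prob ι
  exact Measure.isProbabilityMeasure_map hZ.measurable.aemeasurable

theorem lawZ_int {ι : Type} [Fintype ι] {Z : (ι → ℝ) → ℝ} (hZ : Continuous Z) {φ : ℝ → ℝ} (hφ : Continuous φ) :
    Integrable φ (lawZ Z) ∧ ∫ y, φ y ∂(lawZ Z) = ∫ u in Icc (0 : ι → ℝ) 1, φ (Z u) := by
  unfold lawZ
  constructor
  · rw [integrable_map_measure hφ.aestronglyMeasurable hZ.measurable.aemeasurable]
    exact (hφ.comp hZ).continuousOn.integrableOn_compact isCompact_Icc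
  · rw [integral_map hZ.measurable.aemeasurable hφ.aestronglyMeasurable]

/-- **the generic lemma** -/
theorem lim_core (hG : GrowConv) {g : ℝ → ℝ} (hg : ∀ X : ℝ, 1 ≤ X → BM X g) {ι : ℕ → Type} [∀ N, Fintype (ι N)]
    {Z : (N : ℕ) → (ι N → ℝ) → ℝ} (hZ : ∀ N, Continuous (Z N))
    (hc : ∀ j K n : ℕ, ∃ n0 : ℕ, ∀ N : ℕ, n0 ≤ N → ∃ X₀ : ℕ, ∀ X : ℕ, X₀ + 1 ≤ X →
      |(X : ℝ)⁻¹ * (∫ R in Icc (X : ℝ) (2 * X), fjk j K (g R)) - ∫ u in Icc (0 : ι N → ℝ) 1, fjk j K (Z N u)| ≤ 1 / ((n : ℝ) + 1))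
    (hfc : ∀ j K : ℕ, Continuous (fjk j K))
    (hbl : ∀ J : ℕ, ∃ C : ℝ, ∀ X : ℕ, 1 ≤ X → (X : ℝ)⁻¹ * (∫ R in Icc (X : ℝ) (2 * X), g R ^ (2 * J)) ≤ C)
    (hbm : ∀ J : ℕ, ∃ C : ℕ, ∀ N : ℕ, C ≤ N → ∫ u in Icc (0 : ι N → ℝ) 1, Z N u ^ (2 * J) ≤ C)
    {φ : ℝ → ℝ} (hφ : Continuous φ) {A : ℝ} {q : ℕ} (hgr : ∀ y, |φ y| ≤ A * (1 + |y|) ^ q) {m : ℝ}
    (h : ∀ ε : ℝ, 0 < ε → ∃ X₀ : ℝ, 1 ≤ X₀ ∧ ∀ X : ℝ, X₀ ≤ X → |X⁻¹ * (∫ R in Icc X (2 * X), φ (g R)) - m| ≤ ε) :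
    Tendsto (fun n : ℕ => ∫ u in Icc (0 : ι n → ℝ) 1, φ (Z n u)) atTop (𝓝 m) := by
  have k := hG (lam := law g) (mu := fun N => lawZ (Z N)) (law_prob hg) (fun N => lawZ_prob (hZ N))
    (fun j K n => by
      obtain ⟨n0, h0⟩ := hc j K n
      refine ⟨n0, fun N hN => ?_⟩
      obtain ⟨X₀, h1⟩ := h0 N hN
      refine ⟨X₀, fun X hX => ?_⟩
      rw [(law_int hg (by omega) (hfc j K)).2, (lawZ_int (hZ N) (hfc j K)).2]
      exact h1 X hX)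
    (fun J => by
      obtain ⟨C, hC⟩ := hbl J
      refine ⟨C, fun X hX => ?_⟩
      have h1 := law_int hg hX (φ := fun y => y ^ (2 * J)) (by fun_prop)
      exact ⟨h1.1, h1.2.le.trans (hC X hX)⟩)
    (fun J => by
      obtain ⟨C, hC⟩ := hbm J
      refine ⟨C, fun N hN => ?_⟩
      have h1 := lawZ_int (hZ N) (φ := fun y => y ^ (2 * J)) (by fun_prop)
      exact ⟨h1.1, h1.2.le.trans (hC N hN)⟩)
    hφ hgr
  rw [Metric.tendsto_atTop]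
  intro ε hε
  obtain ⟨n0, h0⟩ := k (ε / 4) (by positivity)
  obtain ⟨X₁, hX₁, h2⟩ := h (ε / 4) (by positivity)
  refine ⟨n0, fun N hN => ?_⟩
  obtain ⟨X₀, h1⟩ := h0 N hN
  obtain ⟨Y, hY⟩ := exists_nat_ge X₁
  have a1 := h1 (X₀ + 1 + Y) (by omega)
  have a2 := h2 ((X₀ + 1 + Y : ℕ) : ℝ) (by
    push_cast
    have : (0 : ℝ) ≤ (X₀ : ℝ) := Nat.cast_nonneg _
    linarith)
  rw [(law_int hg (by omega) hφ).2, (lawZ_int (hZ N) hφ).2] at a1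
  rw [Real.dist_eq]
  have a3 : |(∫ u in Icc (0 : ι N → ℝ) 1, φ (Z N u)) - m| ≤ ε / 4 + ε / 4 := by
    rw [abs_le] at a1 a2 ⊢
    constructor <;> linarith [a1.1, a1.2, a2.1, a2.2]
  linarith

end Pool.Agent.Helper56.XL
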