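import Pool.Agent.Helper56.XL.Core
import Pool.Agent.Helper22.XL.Defs
import Pool.Agent.Helper54.WC.Ae
import Pool.Agent.Helper60.WC.SupE

/-!
# XL, blocks H1, H2: the limits of the means of the random sums are the limits of the means of the error
-/

open MeasureTheory Real Set Filter Topology

set_option autoImplicit false

namespace Pool.Agent.Helper56.XL

open Pool.Agent.Helper22.AE
open Pool.Agent.Helper22.AC (cntc)
open Pool.Agent.Helper93.EX (Mx ak prim sn fJ)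
open Pool.Agent.Helper22.WC (SupE SupQ LimS PM3)
open Pool.Agent.Helper92.LW (LimF fjk cut PM2 BM BM.comp BM.int BM.cont BM.mul BM.sub BM.pow cntc_bm u_bm)
open Pool.Agent.Helper60.AD
open Pool.Agent.Helper22.XL

/-- block A4 as a hypothesis -/
def ZsFacts : Prop := ∀ (H : ℝ → ℝ) (N : ℕ), (Continuous fun u => Zs H N u (0, 0)) ∧ (Continuous fun u => ZS H N u) ∧
    (∀ u, BddAbove (range fun c : ℝ × ℝ => |Zs H N u c|)) ∧ (∃ B : ℝ, ∀ u, ZS H N u ≤ B) ∧ ∀ u, 0 ≤ ZS H N u ∧ |Zs H N u (0, 0)| ≤ ZS H N u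

theorem fjk_cont (j K : ℕ) : Continuous (fjk j K) := by
  have h1 : Continuous (cut K) := by
    unfold cut
    fun_prop
  exact (continuous_pow j).mul h1

/-- from the moments of the error to the moments of the normalized error -/
theorem bl_of {E : ℝ → ℝ} (hE : ∀ X : ℝ, 1 ≤ X → BM X E) {J : ℕ} {C : ℝ}
    (hC : ∀ X : ℝ, 1 ≤ X → ∫ R in Icc X (2 * X), E R ^ (2 * J) ≤ C * X ^ (1 + J)) {X : ℝ} (hX : 1 ≤ X) :
    X⁻¹ * (∫ R in Icc X (2 * X), (E R / sqrt R) ^ (2 * J)) ≤ C := by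
  have hX0 : (0 : ℝ) < X := by linarith
  have b1 : BM X fun R => (sqrt R)⁻¹ := by
    refine BM.cont (ContinuousOn.inv₀ continuous_sqrt.continuousOn fun R hR => ?_)
    have : 0 < R := by linarith [hR.1]
    positivity
  have i1 : IntegrableOn (fun R => (E R / sqrt R) ^ (2 * J)) (Icc X (2 * X)) := (((hE X hX).mul b1).pow _).int
  have i2 : IntegrableOn (fun R => E R ^ (2 * J)) (Icc X (2 * X)) := ((hE X hX).pow _).int
  have h2 : ∫ R in Icc X (2 * X), (E R / sqrt R) ^ (2 * J) ≤ ∫ R in Icc X (2 * X), (X ^ J)⁻¹ * E R ^ (2 * J) := by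
    refine setIntegral_mono_on i1 (i2.const_mul _) measurableSet_Icc fun R hR => ?_
    have hR0 : 0 < R := by linarith [hR.1]
    rw [div_pow, pow_mul (sqrt R), sq_sqrt hR0.le, div_eq_inv_mul]
    refine mul_le_mul_of_nonneg_right ?_ (by rw [pow_mul]; positivity)
    exact inv_anti₀ (by positivity) (pow_le_pow_left₀ hX0.le hR.1 J)
  rw [integral_const_mul] at h2
  calc X⁻¹ * (∫ R in Icc X (2 * X), (E R / sqrt R) ^ (2 * J)) ≤ X⁻¹ * ((X ^ J)⁻¹ * (C * X ^ (1 + J))) := by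
        refine mul_le_mul_of_nonneg_left (h2.trans ?_) (inv_pos.2 hX0).le
        exact mul_le_mul_of_nonneg_left (hC X hX) (by positivity)
    _ = C := by
        rw [pow_add]
        field_simp

theorem momF {H : ℝ → ℝ} (hH : Continuous H) (hp : Function.Periodic H (2 * π))
    (hM : ∀ J : ℕ, ∃ C : ℝ, ∀ X : ℝ, 1 ≤ X → Pool.Agent.Helper92.MM.mom J H X ≤ ENNReal.ofReal (C * X ^ (1 + J))) (J : ℕ) :
    ∃ C : ℝ, ∀ X : ℝ, 1 ≤ X → ∫ R in Icc X (2 * X), (cntc H (0, 0) R - area H * R ^ 2) ^ (2 * J) ≤ C * X ^ (1 + J) := by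
  obtain ⟨C, hC⟩ := hM J
  refine ⟨max C 0, fun X hX => ?_⟩
  have hX0 : (0 : ℝ) < X := by linarith
  have hE : BM X fun R => (cntc H (0, 0) R - area H * R ^ 2) ^ (2 * J) := ((cntc_bm hH hp (0, 0) hX).sub (BM.cont (by fun_prop))).pow _
  have e : ∀ R : ℝ, (cntc H (0, 0) R - area H * R ^ 2) ^ (2 * J) = |cntc H (0, 0) R - area H * R ^ 2| ^ (2 * J) := fun R => by
    rw [pow_mul, pow_mul, sq_abs]
  rw [integral_eq_lintegral_of_nonneg_ae (Eventually.of_forall fun R => by simp only [e]; positivity) hE.1.aestronglyMeasurable]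
  refine ENNReal.toReal_le_of_le_ofReal (by positivity) (le_trans ?_ ((hC X hX).trans (ENNReal.ofReal_le_ofReal
    (mul_le_mul_of_nonneg_right (le_max_left _ _) (by positivity)))))
  unfold Pool.Agent.Helper92.MM.mom
  refine lintegral_mono fun R => ?_
  simp only [e]
  exact le_iSup (fun c : ℝ × ℝ => ENNReal.ofReal (|cntc H c R - area H * R ^ 2| ^ (2 * J))) (0, 0)

theorem supE_bm {H : ℝ → ℝ} (hH : ContDiff ℝ 2 H) (hp : Function.Periodic H (2 * π)) (hr : ∀ θ, 0 < H θ + deriv (deriv H) θ)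
    {X : ℝ} (hX : 1 ≤ X) : BM X (SupE H) := by
  obtain ⟨-, hloc, hmeas, -⟩ := Pool.Agent.Helper60.WC.supE_facts hH hp hr
  obtain ⟨C, hC⟩ := hloc (2 * X)
  refine ⟨hmeas.aemeasurable, C, fun R hR => ?_⟩
  have h1 := hC R ⟨hX.trans hR.1, hR.2⟩
  rw [abs_of_nonneg h1.1]
  exact h1.2

theorem momS {H : ℝ → ℝ} (hH : ContDiff ℝ 2 H) (hp : Function.Periodic H (2 * π)) (hr : ∀ θ, 0 < H θ + deriv (deriv H) θ)
    (hM : ∀ J : ℕ, ∃ C : ℝ, ∀ X : ℝ, 1 ≤ X → Pool.Agent.Helper92.MM.mom J H X ≤ ENNReal.ofReal (C * X ^ (1 + J))) (J : ℕ) :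
    ∃ C : ℝ, ∀ X : ℝ, 1 ≤ X → ∫ R in Icc X (2 * X), SupE H R ^ (2 * J) ≤ C * X ^ (1 + J) := by
  rcases Nat.eq_zero_or_pos J with rfl | hJ
  · refine ⟨1, fun X hX => ?_⟩
    simp only [mul_zero, pow_zero]
    rw [setIntegral_const, Real.volume_real_Icc_of_le (by linarith), smul_eq_mul]
    apply le_of_eq
    ring
  · obtain ⟨-, hloc, hmeas, hid⟩ := Pool.Agent.Helper60.WC.supE_facts hH hp hr
    obtain ⟨C, hC⟩ := hM J
    refine ⟨max C 0, fun X hX => ?_⟩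
    have hX0 : (0 : ℝ) < X := by linarith
    have hE : BM X fun R => SupE H R ^ (2 * J) := (supE_bm hH hp hr hX).pow _
    rw [integral_eq_lintegral_of_nonneg_ae (Eventually.of_forall fun R => by
      show 0 ≤ SupE H R ^ (2 * J)
      rw [pow_mul]
      positivity) hE.1.aestronglyMeasurable]
    refine ENNReal.toReal_le_of_le_ofReal (by positivity) (le_trans ?_ ((hC X hX).trans (ENNReal.ofReal_le_ofReal
      (mul_le_mul_of_nonneg_right (le_max_left _ _) (by positivity)))))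
    unfold Pool.Agent.Helper92.MM.mom
    refine lintegral_mono fun R => le_of_eq ?_
    have h2 := hid ((2 * J : ℕ) : ℝ) (by positivity) R
    simp only [Real.rpow_natCast] at h2
    exact h2.symm

/-- H1 over the blocks G and A4 -/
theorem limF_eq_of (hG : GrowConv) (hz : ZsFacts) {H : ℝ → ℝ} (hH : ContDiff ℝ 2 H) (hp : Function.Periodic H (2 * π))
    (_hr : ∀ θ, 0 < H θ + deriv (deriv H) θ) (hP : PM3 H) (hX : XP H)
    {φ : ℝ → ℝ} (hφ : Continuous φ) {A : ℝ} {q : ℕ} (hg : ∀ y, |φ y| ≤ A * (1 + |y|) ^ q) {m : ℝ}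
    (h : ∀ ε : ℝ, 0 < ε → ∃ X₀ : ℝ, 1 ≤ X₀ ∧ ∀ X : ℝ, X₀ ≤ X → |X⁻¹ * (∫ R in Icc X (2 * X), φ ((cntc H (0, 0) R - area H * R ^ 2) / sqrt R)) - m| ≤ ε) :
    Tendsto (fun n : ℕ => mF (2 ^ n) φ H) atTop (𝓝 m) := by
  refine lim_core hG (g := fun R => (cntc H (0, 0) R - area H * R ^ 2) / sqrt R) (fun X hX1 => u_bm hH.continuous hp (0, 0) hX1)
    (ι := fun N => {k // k ∈ prim (2 ^ N)}) (Z := fun N u => Zs H (2 ^ N) u (0, 0)) (fun N => (hz H (2 ^ N)).1)
    (fun j K n => (hX.1 j K).1 n) fjk_cont ?_ ?_ hφ hg h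
  · intro J
    obtain ⟨C, hC⟩ := momF hH.continuous hp hP.1.1.1 J
    exact ⟨C, fun X hX1 => bl_of (fun X hX => (cntc_bm hH.continuous hp (0, 0) hX).sub (BM.cont (by fun_prop))) hC (by exact_mod_cast hX1)⟩
  · intro J
    obtain ⟨C, hC⟩ := hX.2 J
    refine ⟨C, fun N hN => le_trans ?_ (hC N hN)⟩
    obtain ⟨z1, z2, -, -, z5⟩ := hz H (2 ^ N)
    refine setIntegral_mono_on ((z1.pow _).continuousOn.integrableOn_compact isCompact_Icc)
      ((z2.pow _).continuousOn.integrableOn_compact isCompact_Icc) measurableSet_Icc fun u _ => ?_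
    rw [pow_mul, ← sq_abs, ← pow_mul]
    exact pow_le_pow_left₀ (abs_nonneg _) (z5 u).2 _

/-- H2 over the blocks G and A4 -/
theorem limS_eq_of (hG : GrowConv) (hz : ZsFacts) {H : ℝ → ℝ} (hH : ContDiff ℝ 2 H) (hp : Function.Periodic H (2 * π))
    (hr : ∀ θ, 0 < H θ + deriv (deriv H) θ) (hP : PM3 H) (hX : XP H)
    {φ : ℝ → ℝ} (hφ : Continuous φ) {A : ℝ} {q : ℕ} (hg : ∀ y, |φ y| ≤ A * (1 + |y|) ^ q) {m : ℝ}
    (h : ∀ ε : ℝ, 0 < ε → ∃ X₀ : ℝ, 1 ≤ X₀ ∧ ∀ X : ℝ, X₀ ≤ X → |X⁻¹ * (∫ R in Icc X (2 * X), φ (SupE H R / sqrt R)) - m| ≤ ε) :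
    Tendsto (fun n : ℕ => mS (2 ^ n) φ H) atTop (𝓝 m) := by
  have hbm : ∀ X : ℝ, 1 ≤ X → BM X fun R => SupE H R / sqrt R := by
    intro X hX1
    have b1 : BM X fun R => (sqrt R)⁻¹ := by
      refine BM.cont (ContinuousOn.inv₀ continuous_sqrt.continuousOn fun R hR => ?_)
      have : 0 < R := by linarith [hR.1]
      positivity
    exact (supE_bm hH hp hr hX1).mul b1
  have hae := Pool.Agent.Helper54.WC.supE_ae hH hp hr
  refine lim_core hG (g := fun R => SupE H R / sqrt R) hbm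
    (ι := fun N => {k // k ∈ prim (2 ^ N)}) (Z := fun N u => ZS H (2 ^ N) u) (fun N => (hz H (2 ^ N)).2.1)
    ?_ fjk_cont ?_ ?_ hφ hg h
  · intro j K n
    obtain ⟨n0, h0⟩ := (hX.1 j K).2 n
    refine ⟨n0, fun N hN => ?_⟩
    obtain ⟨X₀, h1⟩ := h0 N hN
    refine ⟨X₀, fun X hX1 => ?_⟩
    have h2 := h1 X hX1
    have hX0 : (0 : ℝ) < X := by
      have : 1 ≤ X := by omega
      exact_mod_cast this
    have e : ∫ R in Icc (X : ℝ) (2 * X), fjk j K (SupE H R / sqrt R) = ∫ R in Icc (X : ℝ) (2 * X), fjk j K (SupQ H R / sqrt R) := by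
      refine setIntegral_congr_ae measurableSet_Icc ?_
      filter_upwards [hae] with R hR hR1
      rw [hR (lt_of_lt_of_le hX0 hR1.1)]
    simp only [e]
    exact h2
  · intro J
    obtain ⟨C, hC⟩ := momS hH hp hr hP.1.1.1 J
    exact ⟨C, fun X hX1 => bl_of (fun X hX => supE_bm hH hp hr hX) hC (by exact_mod_cast hX1)⟩
  · intro J
    exact hX.2 J

end Pool.Agent.Helper56.XL
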